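import Pool.Agent.Helper24.EXJ.Weights
import Pool.Agent.Helper24.EXJ.Kernel

/-!
# Project EX, module J: the leading form is alternating multilinear and `SU(3)` invariant
-/

set_option autoImplicit false

namespace Pool.Agent.Helper14.EXJ

open MeasureTheory Complex Matrix
open scoped BigOperators
open Pool.Agent.Helper87.EX

theorem qf_add {n : ℕ} (Y Y' : Matrix (Fin 3) (Fin 3) ℂ) (m : E n) :
    qf (Y + Y') m = qf Y m + qf Y' m := by
  unfold qf
  rw [← Finset.sum_add_distrib]
  refine Finset.sum_congr rfl (fun j _ => ?_)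
  rw [Matrix.add_mulVec, dotProduct_add, Complex.add_re]

theorem qf_smul {n : ℕ} (c : ℝ) (Y : Matrix (Fin 3) (Fin 3) ℂ) (m : E n) :
    qf (c • Y) m = c * qf Y m := by
  unfold qf
  rw [Finset.mul_sum]
  refine Finset.sum_congr rfl (fun j _ => ?_)
  rw [Matrix.smul_mulVec, dotProduct_smul, Complex.real_smul, Complex.re_ofReal_mul]

theorem qf_cont {n : ℕ} (Y : Matrix (Fin 3) (Fin 3) ℂ) : Continuous (fun m : E n => qf Y m) := by
  unfold qf
  refine continuous_finsetSum _ (fun j _ => Complex.continuous_re.comp ?_)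
  exact Continuous.dotProduct (continuous_apply j).star
    (Continuous.matrix_mulVec continuous_const (continuous_apply j))

/-- the kernel as a linear map to weights -/
noncomputable def dkL (n : ℕ) : Matrix (Fin 3) (Fin 3) ℂ →ₗ[ℝ] Wt n where
  toFun Y := ⟨fun m => dk Y m, by
    refine ⟨?_, ?_⟩
    · unfold dk
      exact ((continuous_const.mul (qf_cont Y)).mul
        (Pool.Agent.Helper14.EXC.continuous_rho n)).measurable
    · exact dk_le Y⟩
  map_add' Y Y' := by
    ext m
    simp only [Submodule.coe_add, Pi.add_apply]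
    unfold dk
    rw [qf_add]
    ring
  map_smul' c Y := by
    ext m
    simp only [Submodule.coe_smul, Pi.smul_apply, RingHom.id_apply, smul_eq_mul]
    unfold dk
    rw [qf_smul]
    ring

/-- the Gaussian density as a weight -/
noncomputable def rhoW (n : ℕ) : Wt n := ⟨fun m => rho m, by
    refine ⟨(Pool.Agent.Helper14.EXC.continuous_rho n).measurable, (Z n)⁻¹, 1,
      inv_nonneg.mpr (Pool.Agent.Helper14.EXC.Z_pos n).le, one_pos, fun m => ?_⟩
    rw [abs_of_nonneg (Pool.Agent.Helper14.EXC.rho_nonneg m)]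
    unfold rho
    rw [div_eq_inv_mul, neg_one_mul]⟩

/-- the leading form as an alternating map -/
theorem wF_alt {r n : ℕ} {F : (Fin (r + 1) → E n) → ℝ} (hG : GI F) (hA : Alter F) :
    ∃ w : AlternatingMap ℝ (Matrix (Fin 3) (Fin 3) ℂ) ℝ (Fin r), ∀ Y, w Y = wF F Y := by
  refine ⟨((II F hG hA).curryLeft (rhoW n)).compLinearMap (dkL n), fun Y => ?_⟩
  rw [AlternatingMap.compLinearMap_apply, AlternatingMap.curryLeft_apply_apply]
  change (∫ m : Fin (r + 1) → E n, F m *
    ∏ i, ((Matrix.vecCons (rhoW n) (fun i => dkL n (Y i)) i : Wt n) : E n → ℝ) (m i)) = _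
  unfold wF
  refine integral_congr_ae (Filter.Eventually.of_forall (fun m => ?_))
  simp only
  rw [Fin.prod_univ_succ]
  rfl

theorem qf_act {n : ℕ} (u : Matrix (Fin 3) (Fin 3) ℂ) (hu : u * uᴴ = 1)
    (Y : Matrix (Fin 3) (Fin 3) ℂ) (m : E n) :
    qf (u * Y * uᴴ) (act u m) = qf Y m := by
  unfold qf act
  refine Finset.sum_congr rfl (fun j _ => ?_)
  have h1 : uᴴ * u = 1 := mul_eq_one_comm.mp hu
  congr 1
  rw [Matrix.mulVec_mulVec, Matrix.mul_assoc, h1, Matrix.mul_one, Matrix.star_mulVec,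
    Matrix.dotProduct_mulVec, Matrix.vecMul_vecMul, ← Matrix.mul_assoc, h1, Matrix.one_mul,
    ← Matrix.dotProduct_mulVec]

theorem wF_inv {r n : ℕ} {F : (Fin (r + 1) → E n) → ℝ} (hI : Inv F)
    (u : Matrix (Fin 3) (Fin 3) ℂ) (hu : u * uᴴ = 1) (hd : u.det = 1)
    (Y : Fin r → Matrix (Fin 3) (Fin 3) ℂ) :
    wF F (fun j => u * Y j * uᴴ) = wF F Y := by
  set g : G3 := ⟨u, hd⟩ with hg
  have hgu : (g : Matrix (Fin 3) (Fin 3) ℂ) = u := rfl
  have hU : IsU g := hu
  unfold wF
  rw [← (Pool.Agent.Helper14.EXC.actP_mp (r + 1) n (fun _ => g)).integral_comp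
    (Pool.Agent.Helper14.EXC.actP (r + 1) n (fun _ => g)).measurableEmbedding]
  refine integral_congr_ae (Filter.Eventually.of_forall (fun m => ?_))
  have hrho : ∀ m : E n, rho (act (g : Matrix (Fin 3) (Fin 3) ℂ) m) = rho m := by
    intro m
    unfold rho
    rw [Pool.Agent.Helper14.EXC.q_act g hU m]
  simp only [Pool.Agent.Helper14.EXC.actP_apply]
  rw [hI g m]
  simp only [hrho]
  congr 2
  refine Finset.prod_congr rfl (fun j _ => ?_)
  rw [hgu, qf_act u hu]

end Pool.Agent.Helper14.EXJ
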